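import Pool.Agent.Helper78.AE.Spec

set_option autoImplicit false

namespace Pool.Agent.Helper71.AE.LOWB

open Pool.Agent.Helper78.AE Module

theorem main : S_LOWB := by
  classical
  intro m V l hl hV hp
  have hne : V.Nonempty := by
    rw [Finset.nonempty_iff_ne_empty]
    rintro rfl
    have := hV.2
    simp at this
  obtain ⟨p0, hp0⟩ := hne
  haveI : Fact (finrank ℝ (EuclideanSpace ℝ (Fin (m + 1))) = m + 1) := ⟨by simp⟩
  let B := OrthonormalBasis.fromOrthogonalSpanSingleton (𝕜 := ℝ) m hl
  let S : Submodule ℝ (EuclideanSpace ℝ (Fin (m + 1))) := (Submodule.span ℝ {l})ᗮ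
  let φ : EuclideanSpace ℝ (Fin (m + 1)) → EuclideanSpace ℝ (Fin m) :=
    fun p => B.repr (S.orthogonalProjection (p - p0))
  have hmem : ∀ p ∈ V, ∀ q ∈ V, p - q ∈ S := by
    intro p hpV q hqV
    rw [Submodule.mem_orthogonal_singleton_iff_inner_right, inner_sub_right, hp p hpV, hp q hqV,
      sub_self]
  have hdist : ∀ p ∈ V, ∀ q ∈ V, dist (φ p) (φ q) = dist p q := by
    intro p hpV q hqV
    show dist (B.repr (S.orthogonalProjection (p - p0)))
      (B.repr (S.orthogonalProjection (q - p0))) = dist p q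
    rw [B.repr.dist_map, dist_eq_norm, ← map_sub, sub_sub_sub_cancel_right, dist_eq_norm]
    rw [Submodule.coe_norm]
    congr 1
    exact congrArg Subtype.val
      (Submodule.orthogonalProjection_mem_subspace_eq_self (K := S) ⟨p - q, hmem p hpV q hqV⟩)
  have hinj : Set.InjOn φ V := by
    intro p hpV q hqV h
    have := hdist p hpV q hqV
    rw [h, dist_self] at this
    exact dist_eq_zero.1 this.symm
  refine ⟨V.image φ, Finset.card_image_of_injOn hinj, ?_, ?_⟩
  · intro x hx y hy z hz hxy hyz hxz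
    obtain ⟨a, ha, rfl⟩ := Finset.mem_image.1 hx
    obtain ⟨b, hb, rfl⟩ := Finset.mem_image.1 hy
    obtain ⟨c, hc, rfl⟩ := Finset.mem_image.1 hz
    rw [hdist a ha b hb, hdist b hb c hc, hdist a ha c hc]
    exact hV.1 a ha b hb c hc (fun h => hxy (h ▸ rfl)) (fun h => hyz (h ▸ rfl))
      (fun h => hxz (h ▸ rfl))
  · let f : {p // p ∈ V} → EuclideanSpace ℝ (Fin m) := fun p => φ p.1
    have hf : Isometry f := Isometry.of_dist_eq fun p q => hdist p.1 p.2 q.1 q.2
    have e1 : ((V.image φ : Finset (EuclideanSpace ℝ (Fin m))) : Set (EuclideanSpace ℝ (Fin m)))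
        = Set.range f := by
      ext y
      simp only [Finset.coe_image, Set.mem_image, Set.mem_range, Finset.mem_coe]
      constructor
      · rintro ⟨p, hpV, rfl⟩
        exact ⟨⟨p, hpV⟩, rfl⟩
      · rintro ⟨p, rfl⟩
        exact ⟨p.1, p.2, rfl⟩
    have e2 : (V : Set (EuclideanSpace ℝ (Fin (m + 1)))) =
        Set.range (Subtype.val : {p // p ∈ V} → EuclideanSpace ℝ (Fin (m + 1))) := by
      ext y
      simp
    have hs : Isometry (Subtype.val : {p // p ∈ V} → EuclideanSpace ℝ (Fin (m + 1))) :=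
      Isometry.of_dist_eq fun p q => rfl
    have h3 := hV.2
    rw [e2, hs.diam_range] at h3
    rw [e1, hf.diam_range]
    exact h3

end Pool.Agent.Helper71.AE.LOWB
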